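import Pool.Agent.Lib.MP_ef0d6f_pr.Final

/-!
MP_ef0d6f_pr: the speed of iterated biased walks on traces at the critical point.

For every `d ≥ 2`, all step distributions `p i` which satisfy Condition 1 (part (a) of that
condition is not needed) and every `i ≥ 1` with `β_(i) = α_(i)`, the velocity of the walk
number `i` is zero.
-/

namespace Pool.Agent.Results.MP_ef0d6f_pr.CriticalSpeed

open MeasureTheory Filter Topology
open Pool.Agent.MP_ef0d6f_pr

/-- At the critical parameter `β_(i) = α_(i)` the walk `X^(i)` is sub-ballistic: its velocity is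
zero, and (whether or not a velocity exists) there is no `c > 0` such that almost surely
the walk is eventually at distance at least `c n` from the origin. -/
theorem result {d : ℕ} (hd : 2 ≤ d) {Ω : Type*} [MeasurableSpace Ω] (μ : Measure Ω)
    [IsProbabilityMeasure μ] (p : ℕ → S d → ℝ) (X : ℕ → ℕ → Ω → V d)
    (hpos : ∀ i s, 0 < p i s) (hsum : ∀ i, ∑ s, p i s = 1)
    (hdrift : ∀ i, 1 ≤ i → 0 < ∑ j, drift (p 0) j * ell (p i) j)
    (hX : IteratedWalk p μ X) (i : ℕ) (hi : 1 ≤ i)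
    (t : ℝ) (ht : 0 < t) (hroot : phi (p 0) (ell (p i)) t = 1)
    (hcrit : Real.exp (nrm (p i)) = Real.exp t) :
    (∀ v : Fin d → ℝ,
      (∀ᵐ ω ∂μ, ∀ j, Tendsto (fun n : ℕ => (X i n ω j : ℝ) / n) atTop (𝓝 (v j))) →
      v = 0) ∧
    (∀ c : ℝ, 0 < c →
      ¬ ∀ᵐ ω ∂μ, ∀ᶠ n : ℕ in atTop, ∃ j, c * n ≤ |(X i n ω j : ℝ)|) :=
  ⟨fun v hv => final hd μ p X hpos hsum hdrift hX i hi t ht hroot hcrit v hv,
    fun c hc => final_low hd μ p X hpos hsum hdrift hX i hi t ht hroot hcrit c hc⟩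

end Pool.Agent.Results.MP_ef0d6f_pr.CriticalSpeed
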